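import Pool.Agent.Q17.FT.Stm
import Pool.Agent.H254R3.IN.PI

/-!
# Project FT (helper17), job PVC (helper38)

Products with an irreducible character of a group `V` of order prime to `p`.
-/

set_option autoImplicit false
set_option linter.unusedSectionVars false

open scoped Classical

noncomputable section

namespace Pool.Agent.Q38.FT

open Pool.Agent.H254R3.IN hiding NN
open Pool.Agent.Q17.AM
open Pool.Agent.Q17.RB
open Pool.Agent.Q111.OS
open Pool.Agent.Q17.FT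

section single

variable {V : Type} [Group V] [Fintype V] {p : ℕ} [Fact p.Prime] {O : ValuationSubring ℂ}

lemma mem_single {ψ : V → ℂ} (h : IsIrr ψ) : ∀ θ ∈ ({ψ} : Set (V → ℂ)), IsIrr θ := by
  intro θ hθ
  rw [Set.mem_singleton_iff.mp hθ]
  exact h

lemma coeff_mem (hp : (p : ℂ) ∈ O.nonunits) (hV : ¬ p ∣ Nat.card V) {ψ : V → ℂ} (h : IsIrr ψ)
    (g : V) : blockCoeff ({ψ} : Set (V → ℂ)) g ∈ O := by
  have h1 : blockCoeff ({ψ} : Set (V → ℂ)) g = (Nat.card V : ℂ)⁻¹ * (ψ 1 * ψ g⁻¹) := by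
    unfold blockCoeff
    rw [finsum_mem_singleton]
  rw [h1]
  exact O.mul_mem _ _ (nat_inv_mem hp hV) (O.mul_mem _ _ (h.val_mem O _) (h.val_mem O _))

/-- an irreducible character of a group of order prime to `p` is alone in its block -/
lemma block_single (hp : (p : ℂ) ∈ O.nonunits) (hV : ¬ p ∣ Nat.card V) {ψ : V → ℂ}
    (h : IsIrr ψ) : IsBlock O {ψ} := by
  refine ⟨ψ, h, ?_⟩
  ext θ
  rw [Set.mem_singleton_iff]
  change θ = ψ ↔ IsIrr θ ∧ ∀ x : V, omega θ x - omega ψ x ∈ O.nonunits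
  constructor
  · rintro rfl
    exact ⟨h, fun x => by rw [sub_self]; exact O.nonunits.zero_mem⟩
  · rintro ⟨hθ, hx⟩
    by_contra hne
    have hB := mem_single h
    have hbc := coeff_mem hp hV h
    have h1 := Om_blockCoeff hB h
    have h2 := Om_blockCoeff hB hθ
    rw [if_pos (Set.mem_singleton ψ)] at h1
    rw [if_neg (fun h => hne (Set.mem_singleton_iff.mp h))] at h2
    have h3 := (red_Om h (blockCoeff_cl hB) hbc).2
    have h4 := (red_Om hθ (blockCoeff_cl hB) hbc).2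
    have h5 : red O (Om (blockCoeff ({ψ} : Set (V → ℂ))) ψ) =
        red O (Om (blockCoeff ({ψ} : Set (V → ℂ))) θ) := by
      rw [h3, h4]
      refine Finset.sum_congr rfl fun K _ => ?_
      rw [(red_eq_iff (hθ.omega_mem O _) (h.omega_mem O _)).mpr (hx _)]
    rw [h1, h2, red_one, red_zero] at h5
    exact one_ne_zero h5

/-- its defect group is trivial -/
lemma defect_single (hp : (p : ℂ) ∈ O.nonunits) (hV : ¬ p ∣ Nat.card V) {ψ : V → ℂ}
    (h : IsIrr ψ) : IsDefectGroup p O {ψ} (⊥ : Subgroup V) := by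
  have hB := mem_single h
  have hbc := coeff_mem hp hV h
  have h1 := Om_blockCoeff hB h
  rw [if_pos (Set.mem_singleton ψ)] at h1
  have h3 := (red_Om h (blockCoeff_cl hB) hbc).2
  rw [h1, red_one] at h3
  obtain ⟨K, hK⟩ : ∃ K : ConjClasses V, red O (blockCoeff ({ψ} : Set (V → ℂ)) (rep K)) *
      red O (omega ψ (rep K)) ≠ 0 := by
    by_contra hc
    push Not at hc
    rw [Finset.sum_congr rfl fun K _ => hc K, Finset.sum_const_zero] at h3
    exact one_ne_zero h3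
  refine ⟨rep K, ?_, ?_, ?_⟩
  · rw [syl_iff]
    refine ⟨bot_le, ?_⟩
    have h4 : ¬ p ∣ Nat.card (Subgroup.centralizer ({rep K} : Set V)) := fun h5 =>
      hV (h5.trans (Subgroup.card_subgroup_dvd_card _))
    rw [Nat.factorization_eq_zero_of_not_dvd h4, pow_zero, Subgroup.card_bot]
  · intro χ hχ hn
    rw [Set.mem_singleton_iff.mp hχ] at hn
    exact hK (by rw [red_eq_zero hn, mul_zero])
  · intro hn
    exact hK (by rw [red_eq_zero hn, zero_mul])

/-- its degree is prime to `p` -/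
lemma deg_single (hp : (p : ℂ) ∈ O.nonunits) (hV : ¬ p ∣ Nat.card V) {ψ : V → ℂ}
    (h : IsIrr ψ) {m : ℕ} (hm : (m : ℂ) = ψ 1) : ¬ p ∣ m := by
  intro hpm
  have hcl : IsCl (fun g => ψ g⁻¹) := by
    intro g y
    have e : (y * g * y⁻¹)⁻¹ = y * g⁻¹ * y⁻¹ := by group
    simp only [e]
    exact h.conj _ _
  have h1 := (red_Om h hcl fun g => h.val_mem O _).1
  have h2 : Om (fun g => ψ g⁻¹) ψ = (Nat.card V : ℂ) / ψ 1 := by
    unfold Om
    have h3 := orth_sum h h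
    rw [if_pos rfl] at h3
    rw [← h3]
    congr 1
    exact Finset.sum_congr rfl fun g _ => mul_comm _ _
  rw [h2] at h1
  have h4 : (Nat.card V : ℂ) = (Nat.card V : ℂ) / ψ 1 * (m : ℂ) := by
    rw [hm]
    field_simp [h.one_ne]
  have h5 : red O (Nat.card V : ℂ) = 0 := by
    rw [h4, red_mul h1 (natCast_mem' m), (red_nat_eq_zero_iff hp m).mpr hpm, mul_zero]
  exact hV ((red_nat_eq_zero_iff hp _).mp h5)

end single

section count

variable {A V : Type} [Group A] [Fintype A] [Group V] [Fintype V] {p : ℕ} [Fact p.Prime]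
  {O : ValuationSubring ℂ}

lemma tp_inj' {ψ : V → ℂ} (h : IsIrr ψ) {χ χ' : A → ℂ} (e : tp χ ψ = tp χ' ψ) : χ = χ' := by
  funext g
  have h1 := congrFun e (g, 1)
  exact mul_right_cancel₀ h.one_ne h1

lemma mem_TB {ψ : V → ℂ} {B : Set (A → ℂ)} {θ : A × V → ℂ} :
    θ ∈ TB B {ψ} ↔ ∃ χ ∈ B, θ = tp χ ψ := by
  constructor
  · rintro ⟨χ, h1, ψ', h2, rfl⟩
    rw [Set.mem_singleton_iff] at h2
    exact ⟨χ, h1, by rw [h2]⟩
  · rintro ⟨χ, h1, rfl⟩
    exact ⟨χ, h1, ψ, Set.mem_singleton _, rfl⟩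

lemma tp_mem_TB {ψ : V → ℂ} (h : IsIrr ψ) {B : Set (A → ℂ)} {χ : A → ℂ} :
    tp χ ψ ∈ TB B {ψ} ↔ χ ∈ B := by
  rw [mem_TB]
  constructor
  · rintro ⟨χ', h1, h2⟩
    rw [tp_inj' h h2]
    exact h1
  · exact fun h1 => ⟨χ, h1, rfl⟩

/-- the stabiliser -/
lemma St_TB {ψ : V → ℂ} (h : IsIrr ψ) {B : Set (A → ℂ)} (hB : ∀ χ ∈ B, IsIrr χ) (hne : B.Nonempty)
    (s : ℂ ≃+* ℂ) : St s (TB B {ψ}) ↔ St s B ∧ ∀ v, s (ψ v) = ψ v := by
  have key : (∀ v, s (ψ v) = ψ v) → ∀ χ : A → ℂ,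
      (fun x => s (tp χ ψ x)) = tp (fun g => s (χ g)) ψ := by
    intro hs χ
    funext x
    change s (χ x.1 * ψ x.2) = s (χ x.1) * ψ x.2
    rw [map_mul, hs]
  constructor
  · intro hS
    obtain ⟨χ₀, h0⟩ := hne
    have h1 := (hS (tp χ₀ ψ)).mp ((tp_mem_TB h).mpr h0)
    obtain ⟨χ₁, h2, h3⟩ := mem_TB.mp h1
    obtain ⟨a, ha0, ha⟩ := (hB χ₀ h0).deg
    obtain ⟨b, hb0, hb⟩ := h.deg
    have haC : (a : ℂ) ≠ 0 := by exact_mod_cast ha0.ne'
    have hbC : (b : ℂ) ≠ 0 := by exact_mod_cast hb0.ne'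
    have h4 : ∀ x : A × V, s (χ₀ x.1) * s (ψ x.2) = χ₁ x.1 * ψ x.2 := by
      intro x
      have h5 := congrFun h3 x
      change s (χ₀ x.1 * ψ x.2) = χ₁ x.1 * ψ x.2 at h5
      rwa [map_mul] at h5
    have h5 := h4 (1, 1)
    simp only at h5
    rw [← ha, ← hb, map_natCast, map_natCast] at h5
    have h6 : χ₁ 1 = a := (mul_right_cancel₀ hbC h5).symm
    have hs : ∀ v, s (ψ v) = ψ v := by
      intro v
      have h7 := h4 (1, v)
      simp only at h7
      rw [← ha, h6, map_natCast] at h7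
      exact mul_left_cancel₀ haC h7
    refine ⟨fun χ => ?_, hs⟩
    rw [← tp_mem_TB (B := B) h, hS (tp χ ψ), key hs, tp_mem_TB h]
  · rintro ⟨hS, hs⟩ θ
    constructor
    · intro h1
      obtain ⟨χ, h2, rfl⟩ := mem_TB.mp h1
      rw [key hs, tp_mem_TB h]
      exact (hS χ).mp h2
    · intro h1
      obtain ⟨χ, h2, h3⟩ := mem_TB.mp h1
      have hs' : ∀ v, s.symm (ψ v) = ψ v := fun v => by
        rw [RingEquiv.symm_apply_eq]
        exact (hs v).symm
      have h4 : θ = tp (fun g => s.symm (χ g)) ψ := by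
        funext x
        have h5 := congrFun h3 x
        change s (θ x) = χ x.1 * ψ x.2 at h5
        change θ x = s.symm (χ x.1) * ψ x.2
        rw [← s.symm_apply_apply (θ x), h5, map_mul, hs']
      rw [h4, tp_mem_TB h, hS]
      simpa only [RingEquiv.apply_symm_apply] using h2

/-- the numbers of the characters -/
lemma count_TB (hp : (p : ℂ) ∈ O.nonunits) (hV : ¬ p ∣ Nat.card V) {ψ : V → ℂ} (h : IsIrr ψ)
    {B : Set (A → ℂ)} (hB : ∀ χ ∈ B, IsIrr χ) (D : Subgroup A) (K : Set (ℂ ≃+* ℂ))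
    (hK : ∀ s ∈ K, ∀ v, s (ψ v) = ψ v) :
    (FxS (Irr0 p (D.prod (⊥ : Subgroup V)) (TB B {ψ})) K).ncard = (FxS (Irr0 p D B) K).ncard := by
  have hinj : Function.Injective (fun χ : A → ℂ => tp χ ψ) := fun χ χ' e => tp_inj' h e
  rw [← Set.ncard_image_of_injective _ hinj]
  congr 1
  obtain ⟨m, hm0, hm⟩ := h.deg
  have hpm := deg_single hp hV h hm
  have hidx : (D.prod (⊥ : Subgroup V)).index.factorization p = D.index.factorization p := by
    rw [Subgroup.index_prod, Subgroup.index_bot,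
      Nat.factorization_mul D.index_ne_zero_of_finite Nat.card_pos.ne', Finsupp.add_apply,
      Nat.factorization_eq_zero_of_not_dvd hV, add_zero]
  have hfac : ∀ a : ℕ, a ≠ 0 → (a * m).factorization p = a.factorization p := by
    intro a ha
    rw [Nat.factorization_mul ha hm0.ne', Finsupp.add_apply,
      Nat.factorization_eq_zero_of_not_dvd hpm, add_zero]
  ext θ
  constructor
  · rintro ⟨⟨h1, n, h2, h3⟩, h4⟩
    obtain ⟨χ, hχ, rfl⟩ := mem_TB.mp h1
    obtain ⟨a, ha0, ha⟩ := (hB χ hχ).deg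
    refine ⟨χ, ⟨⟨hχ, a, ha, ?_⟩, fun s hs g => ?_⟩, rfl⟩
    · have h5 : n = a * m := by
        have h6 : (n : ℂ) = ((a * m : ℕ) : ℂ) := by
          rw [h2, tp_one, ← ha, ← hm]
          push_cast
          rfl
        exact_mod_cast h6
      rw [h5, hfac a ha0.ne', hidx] at h3
      exact h3
    · have h5 := h4 s hs (g, 1)
      change s (χ g * ψ 1) = χ g * ψ 1 at h5
      rw [map_mul, hK s hs] at h5
      exact mul_right_cancel₀ h.one_ne h5
  · rintro ⟨χ, ⟨⟨hχ, a, ha, h3⟩, h4⟩, rfl⟩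
    have ha0 : a ≠ 0 := by
      rintro rfl
      rw [Nat.cast_zero] at ha
      exact (hB χ hχ).one_ne ha.symm
    refine ⟨⟨(tp_mem_TB h).mpr hχ, a * m, ?_, ?_⟩, fun s hs x => ?_⟩
    · change ((a * m : ℕ) : ℂ) = tp χ ψ 1
      rw [tp_one, ← ha, ← hm]
      push_cast
      rfl
    · rw [hfac a ha0, hidx, h3]
    · change s (χ x.1 * ψ x.2) = χ x.1 * ψ x.2
      rw [map_mul, hK s hs, h4 s hs]

/-- transport -/
lemma count_CB {H : Type} [Group H] [Finite H] (e : H ≃* A) (B : Set (A → ℂ)) (D : Subgroup A)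
    (K : Set (ℂ ≃+* ℂ)) : (FxS (Irr0 p (D.comap (e : H →* A)) (CB e B)) K).ncard =
      (FxS (Irr0 p D B) K).ncard := by
  have hinj : Function.Injective (fun (χ : A → ℂ) (x : H) => χ (e x)) := by
    intro χ χ' h
    funext y
    obtain ⟨x, rfl⟩ := e.surjective y
    exact congrFun h x
  rw [← Set.ncard_image_of_injective _ hinj]
  congr 1
  have hidx : (D.comap (e : H →* A)).index = D.index :=
    Subgroup.index_comap_of_surjective D (f := (e : H →* A)) e.surjective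
  ext θ
  constructor
  · rintro ⟨⟨⟨χ, h1, rfl⟩, n, h2, h3⟩, h4⟩
    refine ⟨χ, ⟨⟨h1, n, ?_, ?_⟩, fun s hs g => ?_⟩, rfl⟩
    · simp only [map_one] at h2
      exact h2
    · rw [h3, hidx]
    · have h5 := h4 s hs (e.symm g)
      simpa only [MulEquiv.apply_symm_apply] using h5
  · rintro ⟨χ, ⟨⟨h1, n, h2, h3⟩, h4⟩, rfl⟩
    refine ⟨⟨⟨χ, h1, rfl⟩, n, ?_, ?_⟩, fun s hs g => h4 s hs _⟩
    · simp only [map_one]
      exact h2
    · rw [h3, hidx]

end count

section norm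

variable {G V : Type} [Group G] [Group V]

lemma mem_nor (D : Subgroup G) (x : G × V) :
    x ∈ Pool.Agent.Q17.AM.NN (D.prod (⊥ : Subgroup V)) ↔ x.1 ∈ Pool.Agent.Q17.AM.NN D := by
  unfold Pool.Agent.Q17.AM.NN
  rw [Subgroup.mem_normalizer_iff, Subgroup.mem_normalizer_iff]
  constructor
  · intro h g
    have h1 := h (g, 1)
    rw [Subgroup.mem_prod, Subgroup.mem_prod] at h1
    simpa using h1
  · intro h y
    rw [Subgroup.mem_prod, Subgroup.mem_prod]
    change (y.1 ∈ D ∧ y.2 ∈ (⊥ : Subgroup V)) ↔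
      (x.1 * y.1 * x.1⁻¹ ∈ D ∧ x.2 * y.2 * x.2⁻¹ ∈ (⊥ : Subgroup V))
    rw [← h y.1, Subgroup.mem_bot, Subgroup.mem_bot, conj_eq_one_iff]

/-- the normaliser -/
def eN (D : Subgroup G) : Pool.Agent.Q17.AM.NN (D.prod (⊥ : Subgroup V)) ≃*
    Pool.Agent.Q17.AM.NN D × V where
  toFun x := (⟨x.1.1, (mem_nor D x.1).mp x.2⟩, x.1.2)
  invFun y := ⟨(y.1.1, y.2), (mem_nor D _).mpr y.1.2⟩
  left_inv _ := rfl
  right_inv _ := rfl
  map_mul' _ _ := rfl

lemma comap_eN (D : Subgroup G) :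
    ((D.subgroupOf (Pool.Agent.Q17.AM.NN D)).prod (⊥ : Subgroup V)).comap
      ((eN D : Pool.Agent.Q17.AM.NN (D.prod (⊥ : Subgroup V)) ≃* _) :
        Pool.Agent.Q17.AM.NN (D.prod (⊥ : Subgroup V)) →* Pool.Agent.Q17.AM.NN D × V) =
    (D.prod (⊥ : Subgroup V)).subgroupOf (Pool.Agent.Q17.AM.NN (D.prod (⊥ : Subgroup V))) := by
  ext x
  exact Iff.rfl

/-- the elements of the normaliser conjugate to a given one -/
def eC (D : Subgroup G) (x : G × V) :
    {y : Pool.Agent.Q17.AM.NN (D.prod (⊥ : Subgroup V)) // IsConj x (y : G × V)} ≃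
      {n : Pool.Agent.Q17.AM.NN D // IsConj x.1 (n : G)} × {w : V // IsConj x.2 w} where
  toFun y := (⟨(eN D y.1).1, ((isConj_prod x _).mp y.2).1⟩, ⟨(eN D y.1).2, ((isConj_prod x _).mp y.2).2⟩)
  invFun z := ⟨(eN D).symm (z.1.1, z.2.1), (isConj_prod x _).mpr ⟨z.1.2, z.2.2⟩⟩
  left_inv _ := rfl
  right_inv _ := rfl

end norm

/-- job PVC -/
theorem t_PVC : S_PVC := by
  intro G V _ _ _ _ p _ O hp hV ψ hψ B D b hDt
  obtain ⟨hB, hD, hb, hbD, hbc⟩ := hDt
  have iN : Fintype (Pool.Agent.Q17.AM.NN D) := Fintype.ofFinite _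
  have iN' : Fintype (Pool.Agent.Q17.AM.NN (D.prod (⊥ : Subgroup V))) := Fintype.ofFinite _
  have hψB := block_single hp hV hψ
  have hψD := defect_single hp hV hψ
  refine ⟨CB (eN D) (TB b {ψ}), ⟨block_TB hB hψB, defect_TB hB hψB hD hψD,
    block_CB _ (block_TB hb hψB), ?_, ?_⟩, ?_, ?_⟩
  · have h1 := defect_CB (eN (V := V) D) (defect_TB hb hψB hbD hψD)
    rw [comap_eN] at h1
    exact h1
  · intro χ' hχ' θ' hθ' x
    obtain ⟨χ, hχ, rfl⟩ := mem_TB.mp hχ'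
    obtain ⟨_, hθ2, rfl⟩ := hθ'
    obtain ⟨θ, hθ, rfl⟩ := mem_TB.mp hθ2
    have h1 := hbc χ hχ θ hθ x.1
    have hθ1 := (hb.irr θ hθ).one_ne
    have hψ1 := hψ.one_ne
    have h2 : ∑ᶠ y : {y : Pool.Agent.Q17.AM.NN (D.prod (⊥ : Subgroup V)) // IsConj x (y : G × V)},
        (fun h => tp θ ψ (eN D h)) y / (fun h => tp θ ψ (eN D h)) 1 =
        (∑ᶠ y : {y : Pool.Agent.Q17.AM.NN D // IsConj x.1 (y : G)}, θ y / θ 1) * omega ψ x.2 := by
      have h3 : ∑ᶠ y : {y : Pool.Agent.Q17.AM.NN (D.prod (⊥ : Subgroup V)) // IsConj x (y : G × V)},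
          (fun h => tp θ ψ (eN D h)) y / (fun h => tp θ ψ (eN D h)) 1 =
          ∑ᶠ z : {n : Pool.Agent.Q17.AM.NN D // IsConj x.1 (n : G)} × {w : V // IsConj x.2 w},
            (θ z.1.1 / θ 1) * (ψ z.2.1 / ψ 1) := by
        rw [← finsum_comp_equiv (eC D x)]
        refine finsum_congr fun y => ?_
        change θ (eN D y.1).1 * ψ (eN D y.1).2 / (θ 1 * ψ 1) =
          (θ (eN D y.1).1 / θ 1) * (ψ (eN D y.1).2 / ψ 1)
        rw [mul_div_mul_comm]
      rw [h3, finsum_eq_sum_of_fintype, finsum_eq_sum_of_fintype, Fintype.sum_prod_type]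
      change ∑ n : {n : Pool.Agent.Q17.AM.NN D // IsConj x.1 (n : G)},
        ∑ w : {w : V // IsConj x.2 w}, (θ n.1 / θ 1) * (ψ w.1 / ψ 1) = _
      rw [← Finset.sum_mul_sum]
      congr 1
      have h4 : ∀ w : {w : V // IsConj x.2 w}, ψ w.1 / ψ 1 = ψ x.2 / ψ 1 := fun w => by
        rw [hψ.isConj w.2]
      rw [Finset.sum_congr rfl fun w _ => h4 w, Finset.sum_const, Finset.card_univ, nsmul_eq_mul]
      unfold omega
      rw [Nat.card_eq_fintype_card]
      ring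
    have h5 := hψ.omega_mem O x.2
    change omega (tp χ ψ) x - _ ∈ O.nonunits
    rw [h2, omega_tp, ← sub_mul]
    have h6 : (omega χ x.1 - ∑ᶠ y : {y : Pool.Agent.Q17.AM.NN D // IsConj x.1 (y : G)}, θ y / θ 1) *
        omega ψ x.2 ∈ O := O.mul_mem _ _ (nonunits_mem h1) h5
    rw [← red_eq_zero_iff h6, red_mul (nonunits_mem h1) h5, red_eq_zero h1, zero_mul]
  · exact fun s => St_TB hψ hB.irr hB.nonempty s
  · intro K hK
    refine ⟨count_TB hp hV hψ hB.irr D K hK, ?_⟩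
    rw [← count_TB hp hV hψ hb.irr (D.subgroupOf (Pool.Agent.Q17.AM.NN D)) K hK,
      ← count_CB (eN (V := V) D) (TB b {ψ}) _ K, comap_eN]

end Pool.Agent.Q38.FT
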