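import Pool.Agent.Q283.FT.Stm3
import Pool.Agent.Q193.EN.QCX

/-!
# Project FT of helper283, job GDR: the local conditions at the good places of odd order
-/

set_option autoImplicit false

namespace Pool.Agent.Q38.FT

open NumberField IsDedekindDomain Pool.Agent.Q7.LK Pool.Agent.Q285.LK Pool.Agent.Y682
open Pool.Agent.Q283.FT
open Pool.Agent.Q193.EN (lg lg_mul lg_pow lg_neg lg_coe vl_iff sq_of_lt)

section

variable {F : Type} [Field F] [NumberField F] {v : HeightOneSpectrum (𝓞 F)}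

/-- a number near its difference with a small one -/
theorem pert (hv : ¬ Dp 2 v) {X Y d : v.adicCompletion F} (hd : Y - X = d) (h : vv v X < vv v d) :
    ∃ c : v.adicCompletion F, c ≠ 0 ∧ Y ≠ 0 ∧ Y = d * c ^ 2 := by
  have hd0 : d ≠ 0 := by
    rintro rfl
    rw [map_zero] at h
    exact absurd h (not_lt.2 zero_le)
  obtain ⟨c, hc⟩ := sq_of_lt hv hd0 h
  have hY : Y = X + d := by rw [← hd]; ring
  have hY0 : Y ≠ 0 := by
    have h1 : vv v Y = vv v d := by
      rw [hY]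
      exact Valuation.map_add_eq_of_lt_right _ h
    intro h2
    rw [h2, map_zero] at h1
    exact hd0 ((Valuation.zero_iff _).1 h1.symm)
  rw [add_comm, ← hY] at hc
  refine ⟨c, ?_, hY0, hc⟩
  rintro rfl
  exact hY0 (by rw [hc]; ring)

/-- the analysis of the valuations -/
theorem core (hv : ¬ Dp 2 v) {i α β δ z0 z1 z2 w e0 e1 e2 : v.adicCompletion F} (hi : i ^ 2 = -1)
    (hα : α ≠ 0) (hβ : β ≠ 0) (hδ : δ ≠ 0) (nz : (z0 ≠ 0 ∨ z1 ≠ 0 ∨ z2 ≠ 0) ∨ w ≠ 0)
    (h1 : α * z0 ^ 2 + δ * e0 * w ^ 2 = β * z1 ^ 2 + δ * e1 * w ^ 2)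
    (h2 : α * z0 ^ 2 + δ * e0 * w ^ 2 = α * β * z2 ^ 2 + δ * e2 * w ^ 2)
    (hodd : ¬ ∃ m, lg v δ = 2 * m) (u0 : vv v (e1 - e2) = 1) (u1 : vv v (e0 - e2) = 1)
    (u2 : vv v (e0 - e1) = 1) :
    ((∃ x, α = x ^ 2) ∧ ∃ x, β = x ^ 2) ∨
    ((∃ x, α * ((δ * (e0 - e2)) * (δ * (e0 - e1))) = x ^ 2) ∧ ∃ x, β * (δ * (e0 - e1)) = x ^ 2) ∨
    ((∃ x, α * (δ * (e0 - e1)) = x ^ 2) ∧ ∃ x, β * ((δ * (e1 - e2)) * (δ * (e0 - e1))) = x ^ 2) ∨
    ((∃ x, α * (δ * (e0 - e2)) = x ^ 2) ∧ ∃ x, β * (δ * (e1 - e2)) = x ^ 2) := by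
  have sq0 : ∀ {x : v.adicCompletion F}, x ≠ 0 → x ^ 2 ≠ 0 := fun h => pow_ne_zero 2 h
  by_cases hw : w = 0
  · left
    subst hw
    have h1' : α * z0 ^ 2 = β * z1 ^ 2 := by linear_combination h1
    have h2' : z0 ^ 2 = β * z2 ^ 2 := mul_left_cancel₀ hα (by linear_combination h2)
    have hz0 : z0 ≠ 0 := by
      rintro rfl
      have e1 : z1 = 0 := by
        have : β * z1 ^ 2 = 0 := by rw [← h1']; ring
        exact (pow_eq_zero_iff two_ne_zero).1 ((mul_eq_zero.1 this).resolve_left hβ)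
      have e2 : z2 = 0 := by
        have : β * z2 ^ 2 = 0 := by rw [← h2']; ring
        exact (pow_eq_zero_iff two_ne_zero).1 ((mul_eq_zero.1 this).resolve_left hβ)
      rcases nz with (h | h | h) | h
      · exact h rfl
      · exact h e1
      · exact h e2
      · exact h rfl
    have hz2 : z2 ≠ 0 := by
      rintro rfl
      exact hz0 ((pow_eq_zero_iff two_ne_zero).1 (by rw [h2']; ring))
    refine ⟨⟨z1 / z2, ?_⟩, ⟨z0 / z2, ?_⟩⟩
    · rw [div_pow, eq_div_iff (sq0 hz2)]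
      apply mul_left_cancel₀ hβ
      linear_combination h1' - α * h2'
    · rw [div_pow, eq_div_iff (sq0 hz2)]
      exact h2'.symm
  · have hT : vv v (δ * w ^ 2) ≠ 0 := (Valuation.ne_zero_iff _).2 (mul_ne_zero hδ (sq0 hw))
    have dd : ∀ {x y : v.adicCompletion F}, vv v (x - y) = 1 →
        vv v (δ * (x - y) * w ^ 2) = vv v (δ * w ^ 2) := fun {x y} h => by
      rw [show δ * (x - y) * w ^ 2 = δ * w ^ 2 * (x - y) by ring, map_mul, h, mul_one]
    have D2 := dd u2
    have D1 := dd u1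
    have D0 := dd u0
    have ng : ∀ x : v.adicCompletion F, vv v (-x) = vv v x := fun x => Valuation.map_neg _ _
    have k10 : β * z1 ^ 2 - α * z0 ^ 2 = δ * (e0 - e1) * w ^ 2 := by linear_combination -h1
    have k20 : α * β * z2 ^ 2 - α * z0 ^ 2 = δ * (e0 - e2) * w ^ 2 := by linear_combination -h2
    have k01 : α * z0 ^ 2 - β * z1 ^ 2 = -(δ * (e0 - e1) * w ^ 2) := by linear_combination h1
    have k02 : α * z0 ^ 2 - α * β * z2 ^ 2 = -(δ * (e0 - e2) * w ^ 2) := by linear_combination h2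
    have k21 : α * β * z2 ^ 2 - β * z1 ^ 2 = δ * (e1 - e2) * w ^ 2 := by linear_combination h1 - h2
    have k12 : β * z1 ^ 2 - α * β * z2 ^ 2 = -(δ * (e1 - e2) * w ^ 2) := by linear_combination h2 - h1
    have zz : ∀ {x y : v.adicCompletion F}, x * y ^ 2 ≠ 0 → y ≠ 0 := fun {x y} h h' => h (by rw [h']; ring)
    rcases lt_trichotomy (vv v (α * z0 ^ 2)) (vv v (δ * w ^ 2)) with hA | hA | hA
    · right; left
      obtain ⟨c, hc, hY, hc2⟩ := pert hv k10 (by rw [D2]; exact hA)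
      obtain ⟨d, hd, hZ, hd2⟩ := pert hv k20 (by rw [D1]; exact hA)
      have hz1 := zz hY
      have hz2 := zz hZ
      refine ⟨⟨α * β * z1 * z2 / (w ^ 2 * c * d), ?_⟩, ⟨δ * (e0 - e1) * w * c / z1, ?_⟩⟩
      · rw [div_pow, eq_div_iff (sq0 (mul_ne_zero (mul_ne_zero (sq0 hw) hc) hd))]
        linear_combination (-α) * (δ * (e0 - e2) * w ^ 2 * d ^ 2) * hc2 - α * (β * z1 ^ 2) * hd2
      · rw [div_pow, eq_div_iff (sq0 hz1)]
        linear_combination (δ * (e0 - e1)) * hc2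
    · have hB : vv v (β * z1 ^ 2) ≤ vv v (δ * w ^ 2) := by
        rw [show β * z1 ^ 2 = α * z0 ^ 2 + δ * (e0 - e1) * w ^ 2 by linear_combination -h1]
        refine (Valuation.map_add _ _ _).trans (max_le hA.le D2.le)
      have hC : vv v (α * β * z2 ^ 2) ≤ vv v (δ * w ^ 2) := by
        rw [show α * β * z2 ^ 2 = α * z0 ^ 2 + δ * (e0 - e2) * w ^ 2 by linear_combination -h2]
        refine (Valuation.map_add _ _ _).trans (max_le hA.le D1.le)
      right; right
      rcases lt_or_eq_of_le hB with hB | hB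
      · left
        obtain ⟨c, hc, hY, hc2⟩ := pert hv k01 (by rw [ng, D2]; exact hB)
        obtain ⟨d, hd, hZ, hd2⟩ := pert hv k21 (by rw [D0]; exact hB)
        have hz0 := zz hY
        have hz2 := zz hZ
        refine ⟨⟨i * (δ * (e0 - e1)) * w * c / z0, ?_⟩, ⟨i * (α * β) * z0 * z2 / (w ^ 2 * c * d), ?_⟩⟩
        · rw [div_pow, eq_div_iff (sq0 hz0)]
          linear_combination (δ * (e0 - e1)) * hc2 - (δ * (e0 - e1)) ^ 2 * w ^ 2 * c ^ 2 * hi
        · rw [div_pow, eq_div_iff (sq0 (mul_ne_zero (mul_ne_zero (sq0 hw) hc) hd))]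
          linear_combination β * (δ * (e1 - e2) * w ^ 2 * d ^ 2) * hc2 + β * (α * z0 ^ 2) * hd2 - (α * β) ^ 2 * z0 ^ 2 * z2 ^ 2 * hi
      · rcases lt_or_eq_of_le hC with hC | hC
        · right
          obtain ⟨c, hc, hY, hc2⟩ := pert hv k02 (by rw [ng, D1]; exact hC)
          obtain ⟨d, hd, hZ, hd2⟩ := pert hv k12 (by rw [ng, D0]; exact hC)
          have hz0 := zz hY
          have hz1 := zz hZ
          refine ⟨⟨i * (δ * (e0 - e2)) * w * c / z0, ?_⟩, ⟨i * (δ * (e1 - e2)) * w * d / z1, ?_⟩⟩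
          · rw [div_pow, eq_div_iff (sq0 hz0)]
            linear_combination (δ * (e0 - e2)) * hc2 - (δ * (e0 - e2)) ^ 2 * w ^ 2 * c ^ 2 * hi
          · rw [div_pow, eq_div_iff (sq0 hz1)]
            linear_combination (δ * (e1 - e2)) * hd2 - (δ * (e1 - e2)) ^ 2 * w ^ 2 * d ^ 2 * hi
        · exfalso
          apply hodd
          have nzv : ∀ {x : v.adicCompletion F}, vv v x = vv v (δ * w ^ 2) → x ≠ 0 := fun {x} h h' => by
            rw [h', map_zero] at h
            exact hT h.symm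
          have n0 := nzv hA
          have n1 := nzv hB
          have n2 := nzv hC
          have req : ∀ {x : v.adicCompletion F}, vv v x = vv v (δ * w ^ 2) → lg v x = lg v (δ * w ^ 2) := fun {x} h => by
            unfold lg
            rw [h]
          have hp : (α * z0 ^ 2) * (β * z1 ^ 2) * (α * β * z2 ^ 2) = (α * β * z0 * z1 * z2) ^ 2 := by ring
          have hl := congrArg (lg v) hp
          rw [lg_mul v (mul_ne_zero n0 n1) n2, lg_mul v n0 n1, req hA, req hB, req hC, lg_pow,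
            lg_mul v hδ (sq0 hw), lg_pow] at hl
          push_cast at hl
          exact ⟨lg v (α * β * z0 * z1 * z2) - 3 * lg v w - lg v δ, by linarith⟩
    · left
      have n0 : α * z0 ^ 2 ≠ 0 := by
        intro h
        rw [h, map_zero] at hA
        exact absurd hA (not_lt.2 zero_le)
      have g1 : vv v (δ * (e0 - e1) * w ^ 2) < vv v (α * z0 ^ 2) := by rw [D2]; exact hA
      have g2 : vv v (δ * (e0 - e2) * w ^ 2) < vv v (α * z0 ^ 2) := by rw [D1]; exact hA
      obtain ⟨c, hc⟩ := sq_of_lt hv n0 g1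
      obtain ⟨d, hd⟩ := sq_of_lt hv n0 g2
      have hc2 : β * z1 ^ 2 = α * z0 ^ 2 * c ^ 2 := by rw [← hc]; linear_combination -h1
      have hd2 : α * β * z2 ^ 2 = α * z0 ^ 2 * d ^ 2 := by rw [← hd]; linear_combination -h2
      have m1 : vv v (β * z1 ^ 2) = vv v (α * z0 ^ 2) := by
        rw [show β * z1 ^ 2 = α * z0 ^ 2 + δ * (e0 - e1) * w ^ 2 by linear_combination -h1]
        rw [add_comm]
        exact Valuation.map_add_eq_of_lt_right _ g1
      have m2 : vv v (α * β * z2 ^ 2) = vv v (α * z0 ^ 2) := by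
        rw [show α * β * z2 ^ 2 = α * z0 ^ 2 + δ * (e0 - e2) * w ^ 2 by linear_combination -h2]
        rw [add_comm]
        exact Valuation.map_add_eq_of_lt_right _ g2
      have n1 : β * z1 ^ 2 ≠ 0 := fun h => by
        rw [h, map_zero] at m1
        exact n0 ((Valuation.zero_iff _).1 m1.symm)
      have n2 : α * β * z2 ^ 2 ≠ 0 := fun h => by
        rw [h, map_zero] at m2
        exact n0 ((Valuation.zero_iff _).1 m2.symm)
      have hz2 := zz n2
      have hz0 := zz n0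
      have hc0 : c ≠ 0 := by
        rintro rfl
        exact n1 (by rw [hc2]; ring)
      have hb : β * z2 ^ 2 = z0 ^ 2 * d ^ 2 := mul_left_cancel₀ hα (by linear_combination hd2)
      refine ⟨⟨d * z1 / (z2 * c), ?_⟩, ⟨z0 * d / z2, ?_⟩⟩
      · rw [div_pow, eq_div_iff (sq0 (mul_ne_zero hz2 hc0))]
        apply mul_left_cancel₀ (sq0 hz0)
        linear_combination (-z2 ^ 2) * hc2 + z1 ^ 2 * hb
      · rw [div_pow, eq_div_iff (sq0 hz2)]
        linear_combination hb

end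

theorem gdr (hLCP : S_LCP) (hCPL : S_CPL) : S_GDR := by
  intro F _ _ i hi v e he hg D a b hD hvD
  have : Fact (Nat.Prime 2) := ⟨Nat.prime_two⟩
  have he' : Rt (twi D e) := by
    constructor
    · intro j k h
      exact he.inj (mul_left_cancel₀ hD h)
    · have := he.sum
      unfold twi
      linear_combination D * this
  obtain ⟨l1, l2, l3, l4⟩ := hLCP F i hi (twi D e) he' v
  refine ⟨fun hA => ?_, fun hT => l4 a b hT⟩
  obtain ⟨ha, hb, z, w, hz, q1, q2⟩ := hA
  have m0 : ∀ {x : F}, x ≠ 0 → algebraMap F (v.adicCompletion F) x ≠ 0 := fun h =>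
    (map_ne_zero (algebraMap F (v.adicCompletion F))).2 h
  have hz' : (z 0 ≠ 0 ∨ z 1 ≠ 0 ∨ z 2 ≠ 0) ∨ w ≠ 0 := by
    rcases hz with h | h
    · left
      by_contra hc
      push Not at hc
      apply h
      funext j
      fin_cases j
      · exact hc.1
      · exact hc.2.1
      · exact hc.2.2
    · exact Or.inr h
  have un : ∀ x y : F, v.valuation F (x - y) = 1 →
      vv v (algebraMap F (v.adicCompletion F) x - algebraMap F (v.adicCompletion F) y) = 1 := fun x y h => by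
    rw [← map_sub, vv_coe, h]
  have d0 : df e 0 = e 1 - e 2 := by simp [df]
  have d1 : df e 1 = e 0 - e 2 := by simp [df]
  have d2 : df e 2 = e 0 - e 1 := by simp [df]
  have g0 : df (twi D e) 0 = D * (e 1 - e 2) := by simp [df, twi, mul_sub]
  have g1 : df (twi D e) 1 = D * (e 0 - e 2) := by simp [df, twi, mul_sub]
  have g2 : df (twi D e) 2 = D * (e 0 - e 1) := by simp [df, twi, mul_sub]
  have hsub : ∀ j k, j ≠ k → e j - e k ≠ 0 := fun j k h => sub_ne_zero.2 fun h' => h (he.inj h')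
  have s0 : e 1 - e 2 ≠ 0 := hsub 1 2 (by decide)
  have s1 : e 0 - e 2 ≠ 0 := hsub 0 2 (by decide)
  have s2 : e 0 - e 1 ≠ 0 := hsub 0 1 (by decide)
  have hii : (algebraMap F (v.adicCompletion F) i) ^ 2 = -1 := by
    rw [← map_pow, hi, map_neg, map_one]
  have key := core (v := v) hg.odd (i := algebraMap F _ i) (α := algebraMap F _ a) (β := algebraMap F _ b)
    (δ := algebraMap F _ D) (z0 := z 0) (z1 := z 1) (z2 := z 2) (w := w) (e0 := algebraMap F _ (e 0))
    (e1 := algebraMap F _ (e 1)) (e2 := algebraMap F _ (e 2)) hii (m0 ha) (m0 hb) (m0 hD) hz'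
    (by simpa [twi] using q1) (by simpa [twi] using q2)
    (fun ⟨m, hm⟩ => hvD ((vl_iff D).2 ⟨m, by rw [← lg_coe]; exact hm⟩))
    (un _ _ (by rw [← d0]; exact hg.unit 0)) (un _ _ (by rw [← d1]; exact hg.unit 1))
    (un _ _ (by rw [← d2]; exact hg.unit 2))
  have fin : ∀ m : F, m ≠ 0 → (∃ x, algebraMap F (v.adicCompletion F) m = x ^ 2) → Lpw 2 v m := fun m hm hx => by
    refine (hCPL 2 F v m).2 ⟨hm, ?_⟩
    obtain ⟨x, hx⟩ := hx
    exact ⟨x, by rw [cpl_coe]; exact hx⟩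
  unfold TX
  rw [g0, g1, g2]
  rcases key with ⟨k1, k2⟩ | ⟨k1, k2⟩ | ⟨k1, k2⟩ | ⟨k1, k2⟩
  · exact Or.inl ⟨fin a ha k1, fin b hb k2⟩
  · refine Or.inr (Or.inl ⟨fin _ ?_ ?_, fin _ ?_ ?_⟩)
    · exact mul_ne_zero ha (mul_ne_zero (mul_ne_zero hD s1) (mul_ne_zero hD s2))
    · simpa only [map_mul, map_sub] using k1
    · exact mul_ne_zero hb (mul_ne_zero hD s2)
    · simpa only [map_mul, map_sub] using k2
  · refine Or.inr (Or.inr (Or.inl ⟨fin _ ?_ ?_, fin _ ?_ ?_⟩))
    · exact mul_ne_zero ha (mul_ne_zero hD s2)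
    · simpa only [map_mul, map_sub] using k1
    · exact mul_ne_zero hb (mul_ne_zero (mul_ne_zero hD s0) (mul_ne_zero hD s2))
    · simpa only [map_mul, map_sub] using k2
  · refine Or.inr (Or.inr (Or.inr ⟨fin _ ?_ ?_, fin _ ?_ ?_⟩))
    · exact mul_ne_zero ha (mul_ne_zero hD s1)
    · simpa only [map_mul, map_sub] using k1
    · exact mul_ne_zero hb (mul_ne_zero hD s0)
    · simpa only [map_mul, map_sub] using k2

end Pool.Agent.Q38.FT
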